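import Mathlib
import Pool.Agent.BCP.Final

/-!
# Budgeted colouring of trees with at least three colours: neither polynomial nor NP-hard

The definitions are in `Pool/Agent/BCP/Bin.lean` (`encInstB`, `BCPTB`), `AdjDefs.lean`
(`adjBits`), `Defs.lean` (`BudgetColorable`, `CNF3`, `Sat`, `encCNF`, `DecidedIn`) and in
`Pool/Agent/Lib/PolyTime` (`OutIn` in `FPT.lean`, `unary` in `Out.lean`).

* Part 1: the budgeted colouring problem on trees with at least three colours is decided by a
  Turing machine in quasi-polynomial time.
* Part 2: every language with a polynomial-time many-one reduction to the problem is decided in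
  quasi-polynomial time. So the problem is not NP-hard unless all of NP has quasi-polynomial
  algorithms.
* Part 3: a polynomial-time algorithm for the problem yields an algorithm which decides the
  satisfiability of 3-CNF formulas with `N` variables and `M` clauses in
  `2 ^ O(√(N + M) log (N + M))` steps. So the problem has no polynomial-time algorithm unless the
  exponential time hypothesis is false.
* Part 4: an algorithm with running time `T` yields an algorithm for 3-SAT with running time
  `2 ^ e + T (2 ^ e)`, `e = O(√(N + M) log (N + M))`. So under the exponential time hypothesis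
  there is no algorithm with running time `2 ^ (log n) ^ (2 - ε)`, and part 1 is nearly optimal.
-/

set_option autoImplicit false

namespace Pool.Agent.Results.MP_1448f0_lc.QuasiPoly

open Pool.Agent.BCP Pool.Agent.PolyTime Turing

open Classical in
/-- The complexity of the budgeted colouring problem on trees with at least three colours. -/
theorem result :
    (∃ C : ℕ, DecidedIn BCPTB (fun x => 2 ^ (C * (Nat.log 2 x.length + 1) ^ 2))) ∧
    (∀ (L : Set (List Bool)) (f : List Bool → List Bool),
      Nonempty (TM2ComputableInPolyTime (id : List Bool → List Bool)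
        (id : List Bool → List Bool) f) →
      (∀ x, x ∈ L ↔ f x ∈ BCPTB) →
        ∃ C : ℕ, DecidedIn L (fun x => 2 ^ (C * (Nat.log 2 x.length + 1) ^ 2))) ∧
    (∀ f : List Bool → List Bool,
      Nonempty (TM2ComputableInPolyTime (id : List Bool → List Bool)
        (id : List Bool → List Bool) f) →
      (∀ (n c : ℕ) (G : SimpleGraph (Fin n)) (b : Fin c → ℕ), G.IsTree → 3 ≤ c →
        (f (encInstB G b) = [true] ↔ BudgetColorable G b)) →
      ∃ (A : TM2ComputableAux Bool Bool) (C : ℕ), ∀ (N M : ℕ) (φ : CNF3 N M),
        OutIn A (encCNF φ) [decide (Sat φ)]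
          (2 ^ (C * (Nat.sqrt (N + M) + 1) * (Nat.log 2 (N + M) + 1)))) ∧
    (∀ (D : TM2ComputableAux Bool Bool) (T : ℕ → ℕ), Monotone T →
      (∀ (n c : ℕ) (G : SimpleGraph (Fin n)) (b : Fin c → ℕ), G.IsTree → 3 ≤ c →
        OutIn D (encInstB G b) [decide (BudgetColorable G b)] (T (encInstB G b).length)) →
      ∃ (A : TM2ComputableAux Bool Bool) (C : ℕ), ∀ (N M : ℕ) (φ : CNF3 N M),
        OutIn A (encCNF φ) [decide (Sat φ)]
          (2 ^ (C * (Nat.sqrt (N + M) + 1) * (Nat.log 2 (N + M) + 1)) +
            T (2 ^ (C * (Nat.sqrt (N + M) + 1) * (Nat.log 2 (N + M) + 1))))) :=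
  ⟨fin_quasi_poly, fin_not_hard, fin_not_easy, fin_lower⟩

end Pool.Agent.Results.MP_1448f0_lc.QuasiPoly
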